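import Pool.Agent.helper32.NN.Spec

set_option autoImplicit false

open Submodule

noncomputable section

namespace Pool.Agent.NN

universe u v

theorem TRT (hTRA : TRA_stmt.{u, v}) : TRT_stmt.{u, v} := by
  intro K A _ _ _ _ _ k
  obtain ⟨-, h2, h3, h4, h5, -⟩ := hTRA K A
  apply le_antisymm
  · unfold TT
    apply sSup_le
    rintro J ⟨hJ, hJk⟩
    obtain ⟨J', rfl⟩ := h4 J hJ.1
    rw [h5]
    unfold TS
    exact le_sSup ⟨(h2 J').mp hJ, (h3 J' k).mp hJk⟩
  · have h6 : im K A (TS K A k) ≤ TT (im K A ⊤) (k + 1) ↔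
        TS K A k ≤ (TT (im K A ⊤) (k + 1)).comap (Unitization.inrHom K K A) :=
      Submodule.map_le_iff_le_comap
    rw [h6]
    unfold TS
    apply sSup_le
    rintro J ⟨hJ, hJk⟩
    have h7 : im K A J ≤ TT (im K A ⊤) (k + 1) ↔
        J ≤ (TT (im K A ⊤) (k + 1)).comap (Unitization.inrHom K K A) :=
      Submodule.map_le_iff_le_comap
    rw [← h7]
    unfold TT
    exact le_sSup ⟨(h2 J).mpr hJ, (h3 J k).mpr hJk⟩

end Pool.Agent.NN
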